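import Pool.Agent.Lib.MP_2b3e36_an.Graeffe

/-!
# MP_2b3e36_an: from the certificate to controllers
-/

set_option autoImplicit false

noncomputable section

open Polynomial

namespace Pool.Agent.Lib.MP_2b3e36_an

/-- The real polynomial with the given integer coefficients. -/
def toPoly : List ℤ → ℝ[X]
  | [] => 0
  | a :: P => C (a : ℝ) + X * toPoly P

theorem aeval_toPoly (P : List ℤ) (z : ℂ) : aeval z (toPoly P) = ev P z := by
  induction P with
  | nil => simp [toPoly, ev]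
  | cons a P ih =>
    simp only [toPoly, ev, map_add, map_mul, aeval_X, ih, aeval_C]
    simp

/-- `P` has no zero in the closed unit disc. -/
def ZeroFree (P : ℝ[X]) : Prop := ∀ z : ℂ, ‖z‖ ≤ 1 → aeval z P ≠ 0

/-- Scaling: one certificate for `β₀ = b²/a²` gives polynomials for all `β ≥ β₀`. -/
theorem scaling (gL kL : List ℤ) (a b : ℕ) (ha : 0 < a) (hb : 0 < b)
    (hg : ∀ z : ℂ, ‖z‖ ≤ 1 → ev gL z ≠ 0) (hk : ∀ z : ℂ, ‖z‖ ≤ 1 → ev kL z ≠ 0)
    (hf : ∀ z : ℂ, ‖z‖ ≤ 1 →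
      (a : ℂ) * b * z * ev gL z + ((a : ℂ) ^ 2 * z ^ 2 + (b : ℂ) ^ 2) * ev kL z ≠ 0)
    (β : ℝ) (hβ : (b : ℝ) ^ 2 / (a : ℝ) ^ 2 ≤ β) :
    ∃ G K : ℝ[X], ZeroFree G ∧ ZeroFree K ∧ ZeroFree (X * G + (X ^ 2 + C β) * K) := by
  have ha' : (0 : ℝ) < a := by exact_mod_cast ha
  have hb' : (0 : ℝ) < b := by exact_mod_cast hb
  have hβ0 : 0 < β := lt_of_lt_of_le (by positivity) hβ
  have hs : 0 < √β := Real.sqrt_pos.mpr hβ0
  have hss : √β ^ 2 = β := Real.sq_sqrt hβ0.le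
  set ρ : ℝ := (b : ℝ) / (a * √β) with hρ
  have hρ0 : 0 < ρ := by positivity
  have hρ1 : ρ ≤ 1 := by
    rw [hρ, div_le_one (by positivity)]
    have h1 : (b : ℝ) / a ≤ √β := by
      apply Real.le_sqrt_of_sq_le
      rw [div_pow]; exact hβ
    rw [div_le_iff₀ ha'] at h1
    linarith
  have hsc : ∀ z : ℂ, ‖z‖ ≤ 1 → ‖(ρ : ℂ) * z‖ ≤ 1 := by
    intro z hz
    rw [norm_mul, Complex.norm_real, Real.norm_eq_abs, abs_of_pos hρ0]
    exact mul_le_one₀ hρ1 (norm_nonneg _) hz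
  have hev : ∀ (P : List ℤ) (z : ℂ), aeval z ((toPoly P).comp (C ρ * X)) = ev P ((ρ : ℂ) * z) := by
    intro P z
    rw [aeval_comp, aeval_toPoly]
    simp
  refine ⟨C (a / (b : ℝ)) * C ρ * (toPoly gL).comp (C ρ * X),
    C (β⁻¹) * (toPoly kL).comp (C ρ * X), ?_, ?_, ?_⟩
  · intro z hz
    rw [map_mul, map_mul, hev, aeval_C, aeval_C]
    have h1 := hg _ (hsc z hz)
    refine mul_ne_zero (mul_ne_zero ?_ ?_) h1
    · have : (a : ℝ) / b ≠ 0 := by positivity
      simpa using this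
    · simpa using hρ0.ne'
  · intro z hz
    rw [map_mul, hev, aeval_C]
    have h1 := hk _ (hsc z hz)
    refine mul_ne_zero ?_ h1
    simpa using hβ0.ne'
  · intro z hz
    have h1 := hf _ (hsc z hz)
    have h2 : aeval z (X * (C (a / (b : ℝ)) * C ρ * (toPoly gL).comp (C ρ * X)) +
        (X ^ 2 + C β) * (C (β⁻¹) * (toPoly kL).comp (C ρ * X))) =
        (1 / (b : ℂ) ^ 2) * ((a : ℂ) * b * ((ρ : ℂ) * z) * ev gL ((ρ : ℂ) * z) +
          ((a : ℂ) ^ 2 * ((ρ : ℂ) * z) ^ 2 + (b : ℂ) ^ 2) * ev kL ((ρ : ℂ) * z)) := by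
      simp only [map_add, map_mul, hev, aeval_C, aeval_X, map_pow]
      have hbc : (b : ℂ) ≠ 0 := by exact_mod_cast hb.ne'
      have hβc : (β : ℂ) ≠ 0 := by exact_mod_cast hβ0.ne'
      have h3 : (a : ℂ) ^ 2 * (ρ : ℂ) ^ 2 * β = (b : ℂ) ^ 2 := by
        have h4 : (a : ℝ) ^ 2 * ρ ^ 2 * β = (b : ℝ) ^ 2 := by
          rw [hρ, div_pow, mul_pow, hss]
          field_simp
        exact_mod_cast h4
      have e1 : (algebraMap ℝ ℂ) ((a : ℝ) / b) = (a : ℂ) / b := by simp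
      have e2 : (algebraMap ℝ ℂ) ρ = (ρ : ℂ) := rfl
      have e3 : (algebraMap ℝ ℂ) β = (β : ℂ) := rfl
      have e4 : (algebraMap ℝ ℂ) β⁻¹ = (β : ℂ)⁻¹ := by simp
      rw [e1, e2, e3, e4]
      generalize ev kL ((ρ : ℂ) * z) = κ
      generalize ev gL ((ρ : ℂ) * z) = γ
      field_simp
      linear_combination (-(z ^ 2 * κ)) * h3
    rw [h2]
    refine mul_ne_zero ?_ h1
    have hbc : (b : ℂ) ≠ 0 := by exact_mod_cast hb.ne'
    exact one_div_ne_zero (pow_ne_zero 2 hbc)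

/-! ### Rational functions -/

/-- The value of a real rational function at a complex point, in the Riemann sphere
`ℂ ∪ {∞}`. -/
def valueAt (r : RatFunc ℝ) (z : ℂ) : OnePoint ℂ :=
  open Classical in
  if aeval z r.denom = 0 then OnePoint.infty else ((aeval z r.num / aeval z r.denom : ℂ) : OnePoint ℂ)

theorem valueAt_div (P Q : ℝ[X]) (z : ℂ) (hQ : aeval z Q ≠ 0) :
    valueAt (algebraMap ℝ[X] (RatFunc ℝ) P / algebraMap ℝ[X] (RatFunc ℝ) Q) z =
      ((aeval z P / aeval z Q : ℂ) : OnePoint ℂ) := by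
  classical
  have hQ0 : Q ≠ 0 := by
    rintro rfl
    simp at hQ
  set r := algebraMap ℝ[X] (RatFunc ℝ) P / algebraMap ℝ[X] (RatFunc ℝ) Q with hr
  have h1 : r.denom ∣ Q := RatFunc.denom_div_dvd P Q
  have h2 : aeval z r.denom ≠ 0 := by
    intro h
    obtain ⟨S, hS⟩ := h1
    apply hQ
    rw [hS, map_mul, h, zero_mul]
  have h3 : r.num * Q = P * r.denom := (RatFunc.num_mul_eq_mul_denom_iff hQ0).mpr hr
  have h4 := congrArg (aeval z) h3
  rw [map_mul, map_mul] at h4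
  unfold valueAt
  rw [if_neg h2]
  congr 1
  rw [div_eq_div_iff h2 hQ]
  exact h4

/-- A real rational function without zeros and poles in the closed unit disc. -/
def Bistable (c : RatFunc ℝ) : Prop := ZeroFree c.num ∧ ZeroFree c.denom

theorem bistable_div (P Q : ℝ[X]) (hP : ZeroFree P) (hQ : ZeroFree Q) :
    Bistable (algebraMap ℝ[X] (RatFunc ℝ) P / algebraMap ℝ[X] (RatFunc ℝ) Q) := by
  have hQ0 : Q ≠ 0 := by
    rintro rfl
    exact hQ 0 (by simp) (by simp)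
  constructor
  · intro z hz h
    obtain ⟨S, hS⟩ := RatFunc.num_div_dvd P hQ0
    apply hP z hz
    rw [hS, map_mul, h, zero_mul]
  · intro z hz h
    obtain ⟨S, hS⟩ := RatFunc.denom_div_dvd P Q
    apply hQ z hz
    rw [hS, map_mul, h, zero_mul]

/-- The plant `z / (z² + β)`. -/
def plant (β : ℝ) : RatFunc ℝ :=
  algebraMap ℝ[X] (RatFunc ℝ) X / algebraMap ℝ[X] (RatFunc ℝ) (X ^ 2 + C β)

/-- The controller `c` stabilizes the plant `p`: `p` and `-1/c` take no common value in `D`. -/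
def StabilizedBy (p c : RatFunc ℝ) : Prop :=
  ∀ z : ℂ, ‖z‖ ≤ 1 → valueAt p z ≠ valueAt (-1 / c) z

theorem valueAt_plant_pole (β : ℝ) (hβ : β ≠ 0) (z : ℂ) (hz : z ^ 2 + β = 0) :
    valueAt (plant β) z = OnePoint.infty := by
  classical
  have hQ0 : (X ^ 2 + C β : ℝ[X]) ≠ 0 := by
    intro h
    have h1 := congrArg (Polynomial.eval 0) h
    simp at h1
    exact hβ h1
  have h3 : (plant β).num * (X ^ 2 + C β) = X * (plant β).denom :=
    (RatFunc.num_mul_eq_mul_denom_iff hQ0).mpr rfl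
  have h4 := congrArg (aeval z) h3
  rw [map_mul, map_mul, map_add, map_pow, aeval_X, aeval_C] at h4
  have h5 : z ^ 2 + (algebraMap ℝ ℂ) β = 0 := hz
  rw [h5, mul_zero] at h4
  have hz0 : z ≠ 0 := by
    rintro rfl
    apply hβ
    have : ((0 : ℂ)) ^ 2 + β = 0 := hz
    simpa using this
  have h6 : aeval z (plant β).denom = 0 := by
    rcases mul_eq_zero.mp h4.symm with h | h
    · exact absurd h hz0
    · exact h
  unfold valueAt
  rw [if_pos h6]

/-- from the polynomials to a bistable stabilizing controller -/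
theorem controller (β : ℝ) (hβ : 0 < β) (G K : ℝ[X]) (hG : ZeroFree G) (hK : ZeroFree K)
    (hF : ZeroFree (X * G + (X ^ 2 + C β) * K)) :
    ∃ c : RatFunc ℝ, Bistable c ∧ StabilizedBy (plant β) c := by
  have hG0 : G ≠ 0 := by
    rintro rfl
    exact hG 0 (by simp) (by simp)
  have hK0 : K ≠ 0 := by
    rintro rfl
    exact hK 0 (by simp) (by simp)
  refine ⟨algebraMap ℝ[X] (RatFunc ℝ) G / algebraMap ℝ[X] (RatFunc ℝ) K,
    bistable_div G K hG hK, ?_⟩
  intro z hz h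
  have h1 : (-1 : RatFunc ℝ) / (algebraMap ℝ[X] (RatFunc ℝ) G / algebraMap ℝ[X] (RatFunc ℝ) K) =
      algebraMap ℝ[X] (RatFunc ℝ) (-K) / algebraMap ℝ[X] (RatFunc ℝ) G := by
    rw [div_div_eq_mul_div, map_neg, neg_one_mul]
  rw [h1, valueAt_div _ _ _ (hG z hz)] at h
  by_cases hp : z ^ 2 + (β : ℂ) = 0
  · rw [valueAt_plant_pole β hβ.ne' z hp] at h
    exact OnePoint.infty_ne_coe _ h
  · have h2 : aeval z (X ^ 2 + C β : ℝ[X]) ≠ 0 := by
      rw [map_add, map_pow, aeval_X, aeval_C]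
      exact hp
    rw [plant, valueAt_div _ _ _ h2] at h
    have h3 := OnePoint.coe_injective h
    rw [div_eq_div_iff h2 (hG z hz)] at h3
    apply hF z hz
    rw [map_add, map_mul, map_mul]
    rw [map_neg] at h3
    linear_combination h3

/-- from the polynomials to the interpolating function `q = z G / F` -/
theorem interpolant (β : ℝ) (hβ : 0 < β) (G K : ℝ[X]) (hG : ZeroFree G) (hK : ZeroFree K)
    (hF : ZeroFree (X * G + (X ^ 2 + C β) * K)) :
    ∃ q : RatFunc ℝ, ZeroFree q.denom ∧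
      (∀ z : ℂ, ‖z‖ ≤ 1 → (valueAt q z = ((0 : ℂ) : OnePoint ℂ) ↔ z = 0)) ∧
      (∀ z : ℂ, ‖z‖ ≤ 1 → (valueAt q z = ((1 : ℂ) : OnePoint ℂ) ↔ z ^ 2 + (β : ℂ) = 0)) := by
  set F : ℝ[X] := X * G + (X ^ 2 + C β) * K with hFdef
  refine ⟨algebraMap ℝ[X] (RatFunc ℝ) (X * G) / algebraMap ℝ[X] (RatFunc ℝ) F, ?_, ?_, ?_⟩
  · intro z hz h
    obtain ⟨S, hS⟩ := RatFunc.denom_div_dvd (X * G) F
    apply hF z hz
    rw [hS, map_mul, h, zero_mul]
  · intro z hz
    rw [valueAt_div _ _ _ (hF z hz), OnePoint.coe_eq_coe, div_eq_zero_iff, map_mul, aeval_X,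
      mul_eq_zero]
    constructor
    · rintro ((h | h) | h)
      · exact h
      · exact absurd h (hG z hz)
      · exact absurd h (hF z hz)
    · intro h
      exact Or.inl (Or.inl h)
  · intro z hz
    rw [valueAt_div _ _ _ (hF z hz), OnePoint.coe_eq_coe, div_eq_one_iff_eq (hF z hz)]
    have h1 : aeval z F = aeval z (X * G) + (z ^ 2 + (β : ℂ)) * aeval z K := by
      rw [hFdef, map_add, map_mul (aeval z) (X ^ 2 + C β), map_add, map_pow, aeval_X, aeval_C]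
      rfl
    rw [h1, left_eq_add, mul_eq_zero]
    constructor
    · rintro (h | h)
      · exact h
      · exact absurd h (hK z hz)
    · intro h
      exact Or.inl h

end Pool.Agent.Lib.MP_2b3e36_an
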