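import Mathlib

/-!
# Root squaring: a certificate for the absence of zeros in the closed unit disc

Integer polynomials are lists of coefficients (constant term first).
-/

set_option autoImplicit false

namespace Pool.Agent.Lib.MP_2b3e36_an

/-- the value of a polynomial -/
noncomputable def ev : List ℤ → ℂ → ℂ
  | [], _ => 0
  | a :: P, z => (a : ℂ) + z * ev P z

/-- sum -/
def ladd : List ℤ → List ℤ → List ℤ
  | [], Q => Q
  | a :: P, [] => a :: P
  | a :: P, b :: Q => (a + b) :: ladd P Q

/-- multiple -/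
def lsmul (c : ℤ) : List ℤ → List ℤ
  | [] => []
  | a :: P => (c * a) :: lsmul c P

/-- product -/
def lmul : List ℤ → List ℤ → List ℤ
  | [], _ => []
  | a :: P, Q => ladd (lsmul a Q) (0 :: lmul P Q)

/-- even and odd part -/
def lsplit : List ℤ → List ℤ × List ℤ
  | [] => ([], [])
  | a :: P => (a :: (lsplit P).2, (lsplit P).1)

/-- the polynomial `P1` with `P1 (z^2) = P z * P (-z)` -/
def lgr (P : List ℤ) : List ℤ :=
  ladd (lmul (lsplit P).1 (lsplit P).1) (0 :: lsmul (-1) (lmul (lsplit P).2 (lsplit P).2))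

/-- sum of the absolute values of the coefficients -/
def labs : List ℤ → ℕ
  | [] => 0
  | a :: P => a.natAbs + labs P

/-- the constant term dominates -/
def ldom : List ℤ → Bool
  | [] => false
  | a :: P => Nat.blt (labs P) a.natAbs

/-- the certificate -/
def zfree : ℕ → List ℤ → Bool
  | 0, P => ldom P
  | k + 1, P => zfree k (lgr P)

theorem ev_ladd (P Q : List ℤ) (z : ℂ) : ev (ladd P Q) z = ev P z + ev Q z := by
  induction P generalizing Q with
  | nil => simp [ladd, ev]
  | cons a P ih =>
    cases Q with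
    | nil => simp [ladd, ev]
    | cons b Q =>
      simp only [ladd, ev, ih]
      push_cast
      ring

theorem ev_lsmul (c : ℤ) (P : List ℤ) (z : ℂ) : ev (lsmul c P) z = c * ev P z := by
  induction P with
  | nil => simp [lsmul, ev]
  | cons a P ih =>
    simp only [lsmul, ev, ih]
    push_cast
    ring

theorem ev_lmul (P Q : List ℤ) (z : ℂ) : ev (lmul P Q) z = ev P z * ev Q z := by
  induction P with
  | nil => simp [lmul, ev]
  | cons a P ih =>
    simp only [lmul, ev_ladd, ev_lsmul, ev, ih]
    push_cast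
    ring

theorem ev_lsplit (P : List ℤ) (z : ℂ) :
    ev P z = ev (lsplit P).1 (z ^ 2) + z * ev (lsplit P).2 (z ^ 2) := by
  induction P with
  | nil => simp [lsplit, ev]
  | cons a P ih =>
    simp only [lsplit, ev]
    rw [ih]
    ring

theorem ev_lgr (P : List ℤ) (z : ℂ) : ev (lgr P) (z ^ 2) = ev P z * ev P (-z) := by
  have h1 := ev_lsplit P z
  have h2 := ev_lsplit P (-z)
  rw [neg_sq] at h2
  rw [lgr, ev_ladd, ev_lmul, ev, ev_lsmul, ev_lmul, h1, h2]
  push_cast
  ring

theorem norm_ev_le (P : List ℤ) {z : ℂ} (hz : ‖z‖ ≤ 1) : ‖ev P z‖ ≤ labs P := by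
  induction P with
  | nil => simp [ev, labs]
  | cons a P ih =>
    simp only [ev, labs]
    refine (norm_add_le _ _).trans ?_
    rw [norm_mul]
    push_cast
    have h1 : ‖(a : ℂ)‖ = ((a.natAbs : ℕ) : ℝ) := by
      rw [Complex.norm_intCast, Nat.cast_natAbs, Int.cast_abs]
    have h2 : ‖z‖ * ‖ev P z‖ ≤ 1 * (labs P : ℝ) :=
      mul_le_mul hz ih (norm_nonneg _) zero_le_one
    rw [h1]
    linarith

theorem zfree_spec (k : ℕ) (P : List ℤ) (h : zfree k P = true) {z : ℂ} (hz : ‖z‖ ≤ 1) :
    ev P z ≠ 0 := by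
  induction k generalizing P z with
  | zero =>
    cases P with
    | nil => simp [zfree, ldom] at h
    | cons a P =>
      have h1 : labs P < a.natAbs := by
        have h2 : Nat.blt (labs P) a.natAbs = true := h
        exact Nat.blt_eq.mp h2
      intro h0
      simp only [ev] at h0
      have h2 : (a : ℂ) = -(z * ev P z) := eq_neg_of_add_eq_zero_left h0
      have h3 : ‖(a : ℂ)‖ = ((a.natAbs : ℕ) : ℝ) := by
        rw [Complex.norm_intCast, Nat.cast_natAbs, Int.cast_abs]
      rw [h2, norm_neg, norm_mul] at h3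
      have h4 : ‖z‖ * ‖ev P z‖ ≤ 1 * (labs P : ℝ) :=
        mul_le_mul hz (norm_ev_le P hz) (norm_nonneg _) zero_le_one
      rw [h3, one_mul] at h4
      have h5 : a.natAbs ≤ labs P := by exact_mod_cast h4
      omega
  | succ k ih =>
    intro h0
    have h1 : ‖z ^ 2‖ ≤ 1 := by
      rw [norm_pow]
      exact pow_le_one₀ (norm_nonneg _) hz
    apply ih (lgr P) h h1
    rw [ev_lgr, h0, zero_mul]

end Pool.Agent.Lib.MP_2b3e36_an
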